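import Pool.Agent.SOZ.Ref

/-! Project SOZ (MP_66ba69_lc, two disjoint E-P-cuts), module LemAB: Lemma A, Lemma B, bicliques. -/

set_option autoImplicit false

open Set

namespace Pool.Agent.SOZ

open Pool.Agent.SOC Pool.Agent.SOD Pool.Agent.SOS Pool.Agent.SOP Pool.Agent.SOW Pool.Agent.SOE Pool.Agent.RUP

variable {V : Type} {G : SimpleGraph V} {X Y : Set V}

/-- a union of two disjoint E-P-cuts is an E-P-cut if there are no bad pairs with one end in each of them -/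
theorem union_epc (hX : EPC G X) (hY : EPC G Y)
    (hR : ∀ a ∈ X, ∀ e ∈ Y, ∀ b, b ∉ X ∪ Y → ∀ f, f ∉ X ∪ Y → G.Adj a b → G.Adj e f → ¬ (¬ (G.Adj a e ∧ G.Adj b f) ∧ ¬ (G.Adj a f ∧ G.Adj e b)))
    (hW : ∀ p ∈ X, ∀ q ∈ Y, ∀ p', p' ∉ X ∪ Y → ∀ q', q' ∉ X ∪ Y → ∀ r, ¬ W4 G p p' q q' r) : EPC G (X ∪ Y) := by
  have key : ∀ {p p' q q' r : V}, W4 G p p' q q' r → p ∈ X ∪ Y → q ∈ X ∪ Y → p' ∉ X ∪ Y → q' ∉ X ∪ Y → False := by
    intro p p' q q' r w hp hq hp' hq'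
    rcases hp with hp | hp <;> rcases hq with hq | hq
    · exact hX.w4 w ⟨fun h => hp' (Or.inl (h.1 hp)), fun h => hq' (Or.inl (h.1 hq))⟩
    · exact hW p hp q hq p' hp' q' hq' r w
    · exact hW q hq p hp q' hq' p' hp' r (w4_comm w)
    · exact hY.w4 w ⟨fun h => hp' (Or.inr (h.1 hp)), fun h => hq' (Or.inr (h.1 hq))⟩
  refine ⟨?_, ?_⟩
  · intro a ha c hc b hb d hd hr
    have h1 := hr.ab
    have h2 := hr.cd
    rcases ha with ha | ha <;> rcases hc with hc | hc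
    · exact hX.cut a ha c hc b (fun h => hb (Or.inl h)) d (fun h => hd (Or.inl h)) hr
    · refine hR a ha c hc b hb d hd h1 h2 ⟨hr.n1, fun h => hr.n2 ⟨h.1, h.2.symm⟩⟩
    · refine hR c hc a ha d hd b hb h2 h1 ⟨fun h => hr.n1 ⟨h.1.symm, h.2.symm⟩, fun h => hr.n2 ⟨h.2, h.1.symm⟩⟩
    · exact hY.cut a ha c hc b (fun h => hb (Or.inr h)) d (fun h => hd (Or.inr h)) hr
  · intro p p' q q' r w hs
    by_cases hp : p ∈ X ∪ Y
    · have hp' : p' ∉ X ∪ Y := fun h => hs.1 ⟨fun _ => h, fun _ => hp⟩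
      by_cases hq : q ∈ X ∪ Y
      · exact key w hp hq hp' (fun h => hs.2 ⟨fun _ => h, fun _ => hq⟩)
      · have hq' : q' ∈ X ∪ Y := by
          by_contra h
          exact hs.2 ⟨fun h1 => absurd h1 hq, fun h1 => absurd h1 h⟩
        exact key (w4_swap' w) hp hq' hp' hq
    · have hp' : p' ∈ X ∪ Y := by
        by_contra h
        exact hs.1 ⟨fun h1 => absurd h1 hp, fun h1 => absurd h1 h⟩
      by_cases hq : q ∈ X ∪ Y
      · exact key (w4_swap w) hp' hq hp (fun h => hs.2 ⟨fun _ => h, fun _ => hq⟩)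
      · have hq' : q' ∈ X ∪ Y := by
          by_contra h
          exact hs.2 ⟨fun h1 => absurd h1 hq, fun h1 => absurd h1 h⟩
        exact key (w4_swap (w4_swap' w)) hp' hq' hp hq

/-- LEMMA A: disjoint E-P-cuts with an induced matching of two edges between them: the union is an E-P-cut. -/
theorem lemA (hX : EPC G X) (hY : EPC G Y) (hd : Disjoint X Y) {x1 x2 y1 y2 : V} (m0 : x1 ∈ X) (m1 : x2 ∈ X) (m2 : y1 ∈ Y)
    (m3 : y2 ∈ Y) (k1 : G.Adj x1 y1) (k2 : G.Adj x2 y2) (k3 : ¬ G.Adj x1 y2) (k4 : ¬ G.Adj x2 y1) : EPC G (X ∪ Y) := by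
  refine union_epc hX hY ?_ ?_
  · intro a ma e mc b mb f md e1 e2 e3
    exact aR hX hY hd m0 m1 m2 m3 k1 k2 k3 k4 ma mc mb md e1 e2 e3.1 e3.2
  · intro p ma q mc p' mb q' md r w
    by_cases hr : r ∈ X
    · exact aWX hX hY hd m0 m1 m2 m3 k1 k2 k3 k4 ma mc mb md hr w
    · by_cases hr' : r ∈ Y
      · exact aWY hX hY hd m0 m1 m2 m3 k1 k2 k3 k4 ma mc mb md hr' w
      · exact aWO hX hY hd m0 m1 m2 m3 k1 k2 k3 k4 ma mc mb md (fun h => h.elim hr hr') w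

/-- LEMMA B: disjoint E-P-cuts with an induced path with three edges between them, no induced `P4 v K2`: the union is an E-P-cut. -/
theorem lemB (hX : EPC G X) (hY : EPC G Y) (hd : Disjoint X Y) (hk : NoK6P4 G) {x1 x2 y1 y2 : V} (m0 : x1 ∈ X) (m1 : x2 ∈ X)
    (m2 : y1 ∈ Y) (m3 : y2 ∈ Y) (k1 : G.Adj x1 y1) (k2 : G.Adj x1 y2) (k3 : G.Adj x2 y2) (k4 : ¬ G.Adj x2 y1) : EPC G (X ∪ Y) := by
  refine union_epc hX hY ?_ ?_
  · intro a ma e mc b mb f md e1 e2 e3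
    exact bR hX hY hd hk m0 m1 m2 m3 k1 k2 k3 k4 ma mc mb md e1 e2 e3.1 e3.2
  · intro p ma q mc p' mb q' md r w
    by_cases hr : r ∈ X
    · exact bWX hX hY hd hk m0 m1 m2 m3 k1 k2 k3 k4 ma mc mb md hr w
    · by_cases hr' : r ∈ Y
      · exact bWY hX hY hd hk m0 m1 m2 m3 k1 k2 k3 k4 ma mc mb md hr' w
      · exact bWO hX hY hd hk m0 m1 m2 m3 k1 k2 k3 k4 ma mc mb md (fun h => h.elim hr hr') w

/-- the edges between two disjoint E-P-cuts whose union is not an E-P-cut form a biclique -/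
theorem biclique (hX : EPC G X) (hY : EPC G Y) (hd : Disjoint X Y) (hk : NoK6P4 G) (hU : ¬ EPC G (X ∪ Y)) {x x' y y' : V}
    (hx : x ∈ X) (hx' : x' ∈ X) (hy : y ∈ Y) (hy' : y' ∈ Y) (h : G.Adj x y) (h' : G.Adj x' y') : G.Adj x y' := by
  by_contra hn
  by_cases h2 : G.Adj x' y
  · exact hU (lemB hX hY hd hk (x1 := x') (x2 := x) (y1 := y') (y2 := y) hx' hx hy' hy h' h2 h hn)
  · exact hU (lemA hX hY hd (x1 := x) (x2 := x') (y1 := y) (y2 := y') hx hx' hy hy' h h' hn h2)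

end Pool.Agent.SOZ
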