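import Pool.Agent.SOE.Defs
import Pool.Agent.RUP.Gen

/-! Project SOZ (MP_66ba69_lc, two disjoint E-P-cuts), module Gen0: refutations without distinctness of the points, relations of two sets. -/

set_option autoImplicit false

open Set

namespace Pool.Agent.SOZ

open Pool.Agent.SOC Pool.Agent.SOD Pool.Agent.SOS Pool.Agent.SOP Pool.Agent.SOW Pool.Agent.SOE Pool.Agent.RUP

/-- no condition on distinctness -/
def nne (ts : List Tm) : Bool := ts.all fun t => t.ne.isEmpty

theorem holds_of_PH0 {V : Type} {S : SRel V} {p : Nat → V} {k : Nat} {t : Tm} (hnd : t.nd ≤ 8) (hne : t.ne = []) (h : PH S p k t) :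
    Holds k (relS S p) t := by
  intro δ hδ _ hq
  have hd : ∀ i, i < t.nd → ∃ j, j < k ∧ (fun i => p (δ i)) i = p j := by
    intro i hi
    have h1 := hδ i hi
    have h2 : argv δ i = δ i := if_pos (by omega)
    rw [h2] at h1
    exact ⟨δ i, h1, rfl⟩
  have h1 := neq_elim (h (fun i => p (δ i)) hd) (by
    intro q hqm
    rw [hne] at hqm
    exact absurd hqm List.not_mem_nil)
  obtain ⟨l, hl, hn⟩ := negs_elim h1
  exact ⟨l, hl, val_of_ns hn⟩

/-- an accepted refutation shows that no points (equal or not) satisfy all templates, if there are no conditions on distinctness -/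
theorem refuteN {V : Type} {k n2 n3 n4 o3 o4 M : Nat} (ts : List Tm) (ps : List Nat) (hw : wf k n2 n3 n4 ts = true)
    (hw' : nne ts = true)
    (hn : (Nat.ble (n2 * tri k) o3 && (Nat.ble (o3 + n3 * tet k) o4 && (Nat.ble (o4 + n4 * tri (tri k)) M &&
      Nat.ble 1 M))) = true)
    (h : run (axT k n2 n3 n4 o3 o4 M (2 ^ M + 1) ts) M (2 ^ M + 1) 20 ps Tr.e 1 = true) {S : SRel V} {p : Nat → V}
    (hts : PHs S p k ts) : False := by
  refine refuteT ts ps hw hn h (relS S p) ?_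
  intro t ht
  have h1 := List.all_eq_true.1 hw t ht
  rw [Bool.and_eq_true] at h1
  exact holds_of_PH0 (Nat.le_of_ble_eq_true h1.1) (List.isEmpty_iff.1 (List.all_eq_true.1 hw' t ht)) (hts.mem t ht)

variable {V : Type} {G : SimpleGraph V} {X Y : Set V}

/-- relations: 0 adjacency, 1 membership in `X`, 2 membership in `Y` -/
def rel2 (G : SimpleGraph V) (X Y : Set V) : SRel V where
  r2 r a b := match r with
    | 0 => G.Adj a b
    | 1 => a ∈ X ∧ b ∈ X
    | _ => a ∈ Y ∧ b ∈ Y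
  r3 := fun _ _ _ _ => False
  r4 := fun _ _ _ _ _ => False
  s2 := fun {r _ _} k => match r, k with
    | 0, k => k.symm
    | 1, k => ⟨k.2, k.1⟩
    | _ + 2, k => ⟨k.2, k.1⟩
  s3 := fun h => h
  s3' := fun h => h
  s4 := fun h => h
  s4' := fun h => h

/-- two edges leaving a P-cut, the ends may be equal -/
theorem pcN (hX : IsPCut G X) {a a' b b' : V} (ha : a ∈ X) (ha' : a' ∈ X) (hb : b ∉ X) (hb' : b' ∉ X) (h1 : G.Adj a b)
    (h2 : G.Adj a' b') : (G.Adj a a' ∧ G.Adj b b') ∨ (G.Adj a b' ∧ G.Adj a' b) := by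
  by_cases n1 : a = a'
  · subst n1
    exact Or.inr ⟨h2, h1⟩
  · by_cases n2 : b = b'
    · subst n2
      exact Or.inr ⟨h1, h2⟩
    · by_contra hcon
      push Not at hcon
      exact hX a ha a' ha' b hb b' hb' ⟨h1, h2, n1, fun e => hb' (e ▸ ha), fun e => hb (e ▸ ha'), n2,
        fun k => hcon.1 k.1 k.2, fun k => hcon.2 k.1 k.2.symm⟩

/-- no W4 with both pairs leaving -/
theorem w4N (hX : EPC G X) {p q p' q' r : V} (hp : p ∈ X) (hq : q ∈ X) (hp' : p' ∉ X) (hq' : q' ∉ X) (n1 : ¬ G.Adj p p')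
    (n2 : ¬ G.Adj q q') (e1 : G.Adj p q) (e2 : G.Adj p q') (e3 : G.Adj p' q) (e4 : G.Adj p' q') (r1 : G.Adj r p) (r2 : G.Adj r q)
    (r3 : G.Adj r p') (r4 : G.Adj r q') : False := by
  refine hX.w4 (p := p) (p' := p') (q := q) (q' := q') (r := r) ⟨n1, n2, fun e => hp' (e ▸ hp), fun e => hq' (e ▸ hq), e1, e2, e3, e4, r1, r3, r2, r4⟩
    ?_
  unfold Spl
  tauto

/-- the induced subgraph `P4 v K2` (K6 minus a path with three edges) -/
structure K6P4 (G : SimpleGraph V) (a b c d x y : V) : Prop where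
  ab : G.Adj a b
  bc : G.Adj b c
  cd : G.Adj c d
  ac : ¬ G.Adj a c
  ad : ¬ G.Adj a d
  bd : ¬ G.Adj b d
  xy : G.Adj x y
  xa : G.Adj x a
  xb : G.Adj x b
  xc : G.Adj x c
  xd : G.Adj x d
  ya : G.Adj y a
  yb : G.Adj y b
  yc : G.Adj y c
  yd : G.Adj y d

/-- no induced `P4 v K2` -/
def NoK6P4 (G : SimpleGraph V) : Prop := ∀ a b c d x y, ¬ K6P4 G a b c d x y

end Pool.Agent.SOZ
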