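import Pool.Agent.SOZ.Gen0

/-! Project SOZ (MP_66ba69_lc, two disjoint E-P-cuts), module Ref (generated): refutations. -/

set_option autoImplicit false
set_option maxRecDepth 100000
set_option linter.unusedVariables false

open Set

namespace Pool.Agent.SOZ

open Pool.Agent.SOC Pool.Agent.SOD Pool.Agent.SOS Pool.Agent.SOP Pool.Agent.SOW Pool.Agent.SOE Pool.Agent.RUP

variable {V : Type} {G : SimpleGraph V} {X Y : Set V}

/-- templates -/
def tC : List Tm := [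
  ⟨1, [], [], [.b false 0 0 0]⟩,
  ⟨4, [], [], [.b false 1 0 0, .b false 1 1 1, .b true 1 2 2, .b true 1 3 3, .b false 0 0 2, .b false 0 1 3, .b true 0 0 1, .b true 0 0 3]⟩,
  ⟨4, [], [], [.b false 1 0 0, .b false 1 1 1, .b true 1 2 2, .b true 1 3 3, .b false 0 0 2, .b false 0 1 3, .b true 0 0 1, .b true 0 1 2]⟩,
  ⟨4, [], [], [.b false 1 0 0, .b false 1 1 1, .b true 1 2 2, .b true 1 3 3, .b false 0 0 2, .b false 0 1 3, .b true 0 2 3, .b true 0 0 3]⟩,
  ⟨4, [], [], [.b false 1 0 0, .b false 1 1 1, .b true 1 2 2, .b true 1 3 3, .b false 0 0 2, .b false 0 1 3, .b true 0 2 3, .b true 0 1 2]⟩,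
  ⟨5, [], [], [.b false 1 0 0, .b false 1 1 1, .b true 1 2 2, .b true 1 3 3, .b true 0 0 2, .b true 0 1 3, .b false 0 0 1, .b false 0 0 3, .b false 0 2 1, .b false 0 2 3, .b false 0 4 0, .b false 0 4 1, .b false 0 4 2, .b false 0 4 3]⟩,
  ⟨4, [], [], [.b false 2 0 0, .b false 2 1 1, .b true 2 2 2, .b true 2 3 3, .b false 0 0 2, .b false 0 1 3, .b true 0 0 1, .b true 0 0 3]⟩,
  ⟨4, [], [], [.b false 2 0 0, .b false 2 1 1, .b true 2 2 2, .b true 2 3 3, .b false 0 0 2, .b false 0 1 3, .b true 0 0 1, .b true 0 1 2]⟩,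
  ⟨4, [], [], [.b false 2 0 0, .b false 2 1 1, .b true 2 2 2, .b true 2 3 3, .b false 0 0 2, .b false 0 1 3, .b true 0 2 3, .b true 0 0 3]⟩,
  ⟨4, [], [], [.b false 2 0 0, .b false 2 1 1, .b true 2 2 2, .b true 2 3 3, .b false 0 0 2, .b false 0 1 3, .b true 0 2 3, .b true 0 1 2]⟩,
  ⟨5, [], [], [.b false 2 0 0, .b false 2 1 1, .b true 2 2 2, .b true 2 3 3, .b true 0 0 2, .b true 0 1 3, .b false 0 0 1, .b false 0 0 3, .b false 0 2 1, .b false 0 2 3, .b false 0 4 0, .b false 0 4 1, .b false 0 4 2, .b false 0 4 3]⟩]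

theorem tC_h (hX : EPC G X) (hY : EPC G Y) : UHs (rel2 G X Y) tC :=
  .cons (fun v h0 => h0.ne rfl) (
  .cons (fun v h0 h1 h2 h3 h4 h5 h6 h7 => (pcN hX.cut h0.1 h1.1 (fun k => h2 ⟨k, k⟩) (fun k => h3 ⟨k, k⟩) h4 h5).elim (fun k => h6 k.1) (fun k => h7 k.1)) (
  .cons (fun v h0 h1 h2 h3 h4 h5 h6 h7 => (pcN hX.cut h0.1 h1.1 (fun k => h2 ⟨k, k⟩) (fun k => h3 ⟨k, k⟩) h4 h5).elim (fun k => h6 k.1) (fun k => h7 k.2)) (
  .cons (fun v h0 h1 h2 h3 h4 h5 h6 h7 => (pcN hX.cut h0.1 h1.1 (fun k => h2 ⟨k, k⟩) (fun k => h3 ⟨k, k⟩) h4 h5).elim (fun k => h6 k.2) (fun k => h7 k.1)) (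
  .cons (fun v h0 h1 h2 h3 h4 h5 h6 h7 => (pcN hX.cut h0.1 h1.1 (fun k => h2 ⟨k, k⟩) (fun k => h3 ⟨k, k⟩) h4 h5).elim (fun k => h6 k.2) (fun k => h7 k.2)) (
  .cons (fun v h0 h1 h2 h3 h4 h5 h6 h7 h8 h9 h10 h11 h12 h13 => w4N hX h0.1 h1.1 (fun k => h2 ⟨k, k⟩) (fun k => h3 ⟨k, k⟩) h4 h5 h6 h7 h8 h9 h10 h11 h12 h13) (
  .cons (fun v h0 h1 h2 h3 h4 h5 h6 h7 => (pcN hY.cut h0.1 h1.1 (fun k => h2 ⟨k, k⟩) (fun k => h3 ⟨k, k⟩) h4 h5).elim (fun k => h6 k.1) (fun k => h7 k.1)) (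
  .cons (fun v h0 h1 h2 h3 h4 h5 h6 h7 => (pcN hY.cut h0.1 h1.1 (fun k => h2 ⟨k, k⟩) (fun k => h3 ⟨k, k⟩) h4 h5).elim (fun k => h6 k.1) (fun k => h7 k.2)) (
  .cons (fun v h0 h1 h2 h3 h4 h5 h6 h7 => (pcN hY.cut h0.1 h1.1 (fun k => h2 ⟨k, k⟩) (fun k => h3 ⟨k, k⟩) h4 h5).elim (fun k => h6 k.2) (fun k => h7 k.1)) (
  .cons (fun v h0 h1 h2 h3 h4 h5 h6 h7 => (pcN hY.cut h0.1 h1.1 (fun k => h2 ⟨k, k⟩) (fun k => h3 ⟨k, k⟩) h4 h5).elim (fun k => h6 k.2) (fun k => h7 k.2)) (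
  .cons (fun v h0 h1 h2 h3 h4 h5 h6 h7 h8 h9 h10 h11 h12 h13 => w4N hY h0.1 h1.1 (fun k => h2 ⟨k, k⟩) (fun k => h3 ⟨k, k⟩) h4 h5 h6 h7 h8 h9 h10 h11 h12 h13) (
  .nil)))))))))))

/-- templates -/
def tK : List Tm := [
  ⟨6, [], [], [.b false 1 0 0, .b false 1 1 1, .b false 2 2 2, .b false 2 3 3, .b false 1 4 4, .b true 1 5 5, .b true 2 5 5, .b false 0 0 1, .b false 0 1 2, .b false 0 2 3, .b true 0 0 2, .b true 0 0 3, .b true 0 1 3, .b false 0 4 5, .b false 0 4 0, .b false 0 4 1, .b false 0 4 2, .b false 0 4 3, .b false 0 5 0, .b false 0 5 1, .b false 0 5 2, .b false 0 5 3]⟩,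
  ⟨6, [], [], [.b false 2 0 0, .b false 2 1 1, .b false 1 2 2, .b false 1 3 3, .b false 2 4 4, .b true 1 5 5, .b true 2 5 5, .b false 0 0 1, .b false 0 1 2, .b false 0 2 3, .b true 0 0 2, .b true 0 0 3, .b true 0 1 3, .b false 0 4 5, .b false 0 4 0, .b false 0 4 1, .b false 0 4 2, .b false 0 4 3, .b false 0 5 0, .b false 0 5 1, .b false 0 5 2, .b false 0 5 3]⟩]

theorem tK_h (hk : NoK6P4 G) : UHs (rel2 G X Y) tK :=
  .cons (fun v h0 h1 h2 h3 h4 h5 h6 h7 h8 h9 h10 h11 h12 h13 h14 h15 h16 h17 h18 h19 h20 h21 => hk _ _ _ _ _ _ ⟨h7, h8, h9, h10, h11, h12, h13, h14, h15, h16, h17, h18, h19, h20, h21⟩) (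
  .cons (fun v h0 h1 h2 h3 h4 h5 h6 h7 h8 h9 h10 h11 h12 h13 h14 h15 h16 h17 h18 h19 h20 h21 => hk _ _ _ _ _ _ ⟨h7, h8, h9, h10, h11, h12, h13, h14, h15, h16, h17, h18, h19, h20, h21⟩) (
  .nil))

/-- templates -/
def aR_x : List Tm := [
  ⟨0, [], [], [.b true 0 8 10]⟩,
  ⟨0, [], [], [.b true 0 9 11]⟩,
  ⟨0, [], [], [.b false 0 8 11]⟩,
  ⟨0, [], [], [.b false 0 9 10]⟩,
  ⟨0, [], [], [.b true 1 8 8]⟩,
  ⟨0, [], [], [.b false 2 8 8]⟩,
  ⟨0, [], [], [.b true 1 9 9]⟩,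
  ⟨0, [], [], [.b false 2 9 9]⟩,
  ⟨0, [], [], [.b false 1 10 10]⟩,
  ⟨0, [], [], [.b true 2 10 10]⟩,
  ⟨0, [], [], [.b false 1 11 11]⟩,
  ⟨0, [], [], [.b true 2 11 11]⟩,
  ⟨0, [], [], [.b true 0 12 14]⟩,
  ⟨0, [], [], [.b true 0 13 15]⟩,
  ⟨0, [], [], [.b false 0 12 13, .b false 0 14 15]⟩,
  ⟨0, [], [], [.b false 0 12 15, .b false 0 13 14]⟩,
  ⟨0, [], [], [.b true 1 12 12]⟩,
  ⟨0, [], [], [.b false 2 12 12]⟩,
  ⟨0, [], [], [.b false 1 13 13]⟩,
  ⟨0, [], [], [.b true 2 13 13]⟩,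
  ⟨0, [], [], [.b false 1 14 14]⟩,
  ⟨0, [], [], [.b false 2 14 14]⟩,
  ⟨0, [], [], [.b false 1 15 15]⟩,
  ⟨0, [], [], [.b false 2 15 15]⟩]

def aR_p0 : List Nat := [
0x64200700000002700000002300000001b00000001f00000001900000001700000002b0018000801,
0x64200300000002700000001b00000002300000001f00000001900000001700000002b0003000801,
0xe46200b0004e02070006e20070002e6a110000e4a11000ac2807000ac080700000003f00000003b00000003700000002f00000002100000002900000004500000003d00000003100000002500000002d00000004300000002b00000001b00000002700000001d00000001f0000000040000000230000000170000000190000000020039004e001d02,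
0xc46200b0000c46110002c64110006c28070004c08070008e6a110008e4a1100000004500000003d00000003900000003100000003f00000003700000002f00000002500000004100000002d00000002100000002900000002b00000001b00000002700000001d00000001f00000000400000002300000001700000001900000000200390060001d02,
0x80000000350000000060039000301,
0x3300000000a00d2000201,
0x2e6411000e0a411000ec2807000ec080700000001900000002900000002500000001d00000002d00000004500000001700000002100000003100000003d00000002f00000002300000003700000003f00000000c00000004300000001f0060001501,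
0x3500000000e00ba000201,
0xce4a1100000004500000000c00000004100000003d00000002900000003100000001000b1000801,
0xce6a1100000004500000000c00000004100000003d00000002d00000003100000001000b4000801,
0xc4800700000003f00000003700000002f00000002700000001f000000017000000012003f000801,
0x6c200700000003f00000002b00000002300000001b00000001f000000019000000014000000016000900]

def aR_pf : List Nat := aR_p0

theorem aR_ref {V : Type} {S : SRel V} {p : Nat → V} (hts : PHs S p 8 (tC ++ (aR_x))) : False :=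
  refuteN (k := 8) (n2 := 3) (n3 := 0) (n4 := 0) (o3 := 108) (o4 := 108) (M := 108) (tC ++ (aR_x)) aR_pf (by decide +kernel)
    (by decide +kernel) (by decide +kernel) (by decide +kernel) hts

theorem aR (hX : EPC G X) (hY : EPC G Y) (hd0 : Disjoint X Y) {x1 x2 y1 y2 a e b f : V}
    (m0 : x1 ∈ X) (m1 : x2 ∈ X) (m2 : y1 ∈ Y) (m3 : y2 ∈ Y) (k1 : G.Adj x1 y1) (k2 : G.Adj x2 y2) (k3 : ¬ G.Adj x1 y2) (k4 : ¬ G.Adj x2 y1)
    (ma : a ∈ X) (mc : e ∈ Y) (mb : b ∉ X ∪ Y) (md : f ∉ X ∪ Y) (e1 : G.Adj a b) (e2 : G.Adj e f) (e3 : ¬ (G.Adj a e ∧ G.Adj b f))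
    (e4 : ¬ (G.Adj a f ∧ G.Adj e b)) : False :=
  aR_ref (S := rel2 G X Y) (p := pt [x1, x2, y1, y2, a, e, b, f] x1) (PHs.app (UHs.phs (tC_h hX hY) _ _) (
  .cons (fun d hd h0 => h0 k1) (
  .cons (fun d hd h0 => h0 k2) (
  .cons (fun d hd h0 => k3 h0) (
  .cons (fun d hd h0 => k4 h0) (
  .cons (fun d hd h0 => h0 ⟨m0, m0⟩) (
  .cons (fun d hd h0 => (Set.disjoint_left.1 hd0 m0 h0.1)) (
  .cons (fun d hd h0 => h0 ⟨m1, m1⟩) (
  .cons (fun d hd h0 => (Set.disjoint_left.1 hd0 m1 h0.1)) (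
  .cons (fun d hd h0 => (Set.disjoint_left.1 hd0 h0.1 m2)) (
  .cons (fun d hd h0 => h0 ⟨m2, m2⟩) (
  .cons (fun d hd h0 => (Set.disjoint_left.1 hd0 h0.1 m3)) (
  .cons (fun d hd h0 => h0 ⟨m3, m3⟩) (
  .cons (fun d hd h0 => h0 e1) (
  .cons (fun d hd h0 => h0 e2) (
  .cons (fun d hd h0 h1 => e3 ⟨h0, h1⟩) (
  .cons (fun d hd h0 h1 => e4 ⟨h0, h1⟩) (
  .cons (fun d hd h0 => h0 ⟨ma, ma⟩) (
  .cons (fun d hd h0 => (Set.disjoint_left.1 hd0 ma h0.1)) (
  .cons (fun d hd h0 => (Set.disjoint_left.1 hd0 h0.1 mc)) (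
  .cons (fun d hd h0 => h0 ⟨mc, mc⟩) (
  .cons (fun d hd h0 => mb (Or.inl h0.1)) (
  .cons (fun d hd h0 => mb (Or.inr h0.1)) (
  .cons (fun d hd h0 => md (Or.inl h0.1)) (
  .cons (fun d hd h0 => md (Or.inr h0.1)) (
  .nil))))))))))))))))))))))))))

/-- templates -/
def aWX_x : List Tm := [
  ⟨0, [], [], [.b true 0 8 10]⟩,
  ⟨0, [], [], [.b true 0 9 11]⟩,
  ⟨0, [], [], [.b false 0 8 11]⟩,
  ⟨0, [], [], [.b false 0 9 10]⟩,
  ⟨0, [], [], [.b true 1 8 8]⟩,
  ⟨0, [], [], [.b false 2 8 8]⟩,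
  ⟨0, [], [], [.b true 1 9 9]⟩,
  ⟨0, [], [], [.b false 2 9 9]⟩,
  ⟨0, [], [], [.b false 1 10 10]⟩,
  ⟨0, [], [], [.b true 2 10 10]⟩,
  ⟨0, [], [], [.b false 1 11 11]⟩,
  ⟨0, [], [], [.b true 2 11 11]⟩,
  ⟨0, [], [], [.b false 0 12 14]⟩,
  ⟨0, [], [], [.b false 0 13 15]⟩,
  ⟨0, [], [], [.b true 0 12 13]⟩,
  ⟨0, [], [], [.b true 0 12 15]⟩,
  ⟨0, [], [], [.b true 0 14 13]⟩,
  ⟨0, [], [], [.b true 0 14 15]⟩,
  ⟨0, [], [], [.b true 0 16 12]⟩,
  ⟨0, [], [], [.b true 0 16 14]⟩,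
  ⟨0, [], [], [.b true 0 16 13]⟩,
  ⟨0, [], [], [.b true 0 16 15]⟩,
  ⟨0, [], [], [.b true 1 12 12]⟩,
  ⟨0, [], [], [.b false 2 12 12]⟩,
  ⟨0, [], [], [.b false 1 13 13]⟩,
  ⟨0, [], [], [.b true 2 13 13]⟩,
  ⟨0, [], [], [.b false 1 14 14]⟩,
  ⟨0, [], [], [.b false 2 14 14]⟩,
  ⟨0, [], [], [.b false 1 15 15]⟩,
  ⟨0, [], [], [.b false 2 15 15]⟩,
  ⟨0, [], [], [.b true 1 16 16]⟩,
  ⟨0, [], [], [.b false 2 16 16]⟩]

def aWX_p0 : List Nat := [
0x64200700000002700000002300000001b00000001f00000001900000001700000002b0018000801,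
0x64200300000002700000001b00000002300000001f00000001900000001700000002b0003000801,
0x10ace80b00000003100000004700000002f00000004300000004100000003300000003700000003500000003900000003f00000003b00000003d00000004b00f1000e01,
0x1046200b00047020300065000300000000200000001900000001700000002300000000400000001f00000001d00000002700000001b00000002b00000005300fc00f9000e02,
0xcf0a4150004e10070004c100700100a40d00000003d00000003900000003f00000003700000004100000004900000002900000003100000005100000005500000001700000001f00000002700000000600000005300000004b0000000210072001501,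
0x800000000a00fc000201,
0x102a60d00000005500000004900000003f00000002500000001900000002d00000000c0036000801,
0x6c300700000005300000004b00000003d00000002b00000002300000001900000000c0048000801,
0x6e300700000005300000000600000004100000002b00000002300000001900000000c005d000801,
0xcf0a61500000005500000001200000005100000003100000002d00000000e00000004900000004100000003700000003f00000003900000003d00000000c000000010000f00]

def aWX_pf : List Nat := aWX_p0

theorem aWX_ref {V : Type} {S : SRel V} {p : Nat → V} (hts : PHs S p 9 (tC ++ (aWX_x))) : False :=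
  refuteN (k := 9) (n2 := 3) (n3 := 0) (n4 := 0) (o3 := 135) (o4 := 135) (M := 135) (tC ++ (aWX_x)) aWX_pf (by decide +kernel)
    (by decide +kernel) (by decide +kernel) (by decide +kernel) hts

theorem aWX (hX : EPC G X) (hY : EPC G Y) (hd0 : Disjoint X Y) {x1 x2 y1 y2 p q p' q' r : V}
    (m0 : x1 ∈ X) (m1 : x2 ∈ X) (m2 : y1 ∈ Y) (m3 : y2 ∈ Y) (k1 : G.Adj x1 y1) (k2 : G.Adj x2 y2) (k3 : ¬ G.Adj x1 y2) (k4 : ¬ G.Adj x2 y1)
    (ma : p ∈ X) (mc : q ∈ Y) (mb : p' ∉ X ∪ Y) (md : q' ∉ X ∪ Y) (mr : r ∈ X) (w : W4 G p p' q q' r) : False :=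
  aWX_ref (S := rel2 G X Y) (p := pt [x1, x2, y1, y2, p, q, p', q', r] x1) (PHs.app (UHs.phs (tC_h hX hY) _ _) (
  .cons (fun d hd h0 => h0 k1) (
  .cons (fun d hd h0 => h0 k2) (
  .cons (fun d hd h0 => k3 h0) (
  .cons (fun d hd h0 => k4 h0) (
  .cons (fun d hd h0 => h0 ⟨m0, m0⟩) (
  .cons (fun d hd h0 => (Set.disjoint_left.1 hd0 m0 h0.1)) (
  .cons (fun d hd h0 => h0 ⟨m1, m1⟩) (
  .cons (fun d hd h0 => (Set.disjoint_left.1 hd0 m1 h0.1)) (
  .cons (fun d hd h0 => (Set.disjoint_left.1 hd0 h0.1 m2)) (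
  .cons (fun d hd h0 => h0 ⟨m2, m2⟩) (
  .cons (fun d hd h0 => (Set.disjoint_left.1 hd0 h0.1 m3)) (
  .cons (fun d hd h0 => h0 ⟨m3, m3⟩) (
  .cons (fun d hd h0 => w.n1 h0) (
  .cons (fun d hd h0 => w.n2 h0) (
  .cons (fun d hd h0 => h0 w.pq) (
  .cons (fun d hd h0 => h0 w.pq') (
  .cons (fun d hd h0 => h0 w.p'q) (
  .cons (fun d hd h0 => h0 w.p'q') (
  .cons (fun d hd h0 => h0 w.rp) (
  .cons (fun d hd h0 => h0 w.rp') (
  .cons (fun d hd h0 => h0 w.rq) (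
  .cons (fun d hd h0 => h0 w.rq') (
  .cons (fun d hd h0 => h0 ⟨ma, ma⟩) (
  .cons (fun d hd h0 => (Set.disjoint_left.1 hd0 ma h0.1)) (
  .cons (fun d hd h0 => (Set.disjoint_left.1 hd0 h0.1 mc)) (
  .cons (fun d hd h0 => h0 ⟨mc, mc⟩) (
  .cons (fun d hd h0 => mb (Or.inl h0.1)) (
  .cons (fun d hd h0 => mb (Or.inr h0.1)) (
  .cons (fun d hd h0 => md (Or.inl h0.1)) (
  .cons (fun d hd h0 => md (Or.inr h0.1)) (
  .cons (fun d hd h0 => h0 ⟨mr, mr⟩) (
  .cons (fun d hd h0 => (Set.disjoint_left.1 hd0 mr h0.1)) (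
  .nil))))))))))))))))))))))))))))))))))

/-- templates -/
def aWY_x : List Tm := [
  ⟨0, [], [], [.b true 0 8 10]⟩,
  ⟨0, [], [], [.b true 0 9 11]⟩,
  ⟨0, [], [], [.b false 0 8 11]⟩,
  ⟨0, [], [], [.b false 0 9 10]⟩,
  ⟨0, [], [], [.b true 1 8 8]⟩,
  ⟨0, [], [], [.b false 2 8 8]⟩,
  ⟨0, [], [], [.b true 1 9 9]⟩,
  ⟨0, [], [], [.b false 2 9 9]⟩,
  ⟨0, [], [], [.b false 1 10 10]⟩,
  ⟨0, [], [], [.b true 2 10 10]⟩,
  ⟨0, [], [], [.b false 1 11 11]⟩,
  ⟨0, [], [], [.b true 2 11 11]⟩,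
  ⟨0, [], [], [.b false 0 12 14]⟩,
  ⟨0, [], [], [.b false 0 13 15]⟩,
  ⟨0, [], [], [.b true 0 12 13]⟩,
  ⟨0, [], [], [.b true 0 12 15]⟩,
  ⟨0, [], [], [.b true 0 14 13]⟩,
  ⟨0, [], [], [.b true 0 14 15]⟩,
  ⟨0, [], [], [.b true 0 16 12]⟩,
  ⟨0, [], [], [.b true 0 16 14]⟩,
  ⟨0, [], [], [.b true 0 16 13]⟩,
  ⟨0, [], [], [.b true 0 16 15]⟩,
  ⟨0, [], [], [.b true 1 12 12]⟩,
  ⟨0, [], [], [.b false 2 12 12]⟩,
  ⟨0, [], [], [.b false 1 13 13]⟩,
  ⟨0, [], [], [.b true 2 13 13]⟩,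
  ⟨0, [], [], [.b false 1 14 14]⟩,
  ⟨0, [], [], [.b false 2 14 14]⟩,
  ⟨0, [], [], [.b false 1 15 15]⟩,
  ⟨0, [], [], [.b false 2 15 15]⟩,
  ⟨0, [], [], [.b false 1 16 16]⟩,
  ⟨0, [], [], [.b true 2 16 16]⟩]

def aWY_p0 : List Nat := [
0x64200700000002700000002300000001b00000001f00000001900000001700000002b0018000801,
0x64200300000002700000001b00000002300000001f00000001900000001700000002b0003000801,
0xed0800b0000e50110000c501100104800300000003b00000003900000003500000003d00000004100000004300000001f00000002f00000004b00000005300000002900000001700000002100000005100000005500000004d000000027006c001501,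
0xed0820b0002e70110002c701100106820300000003b00000003900000003500000003d00000004100000004300000002300000002f00000004b00000005300000002d00000001900000002500000005100000005500000004d00000002b006f001501,
0x50020700000005300000002700000002300000001d00000001f0000000170000000080072000801,
0x1046200b00000002b00000001b00000002700000001d00000001f00000000400000002300000001700000001900000000200000000600000000800000000a00fc000e01,
0x70200700000005300000002b00000002300000001b00000001f00000001900000000c000000006000900]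

def aWY_pf : List Nat := aWY_p0

theorem aWY_ref {V : Type} {S : SRel V} {p : Nat → V} (hts : PHs S p 9 (tC ++ (aWY_x))) : False :=
  refuteN (k := 9) (n2 := 3) (n3 := 0) (n4 := 0) (o3 := 135) (o4 := 135) (M := 135) (tC ++ (aWY_x)) aWY_pf (by decide +kernel)
    (by decide +kernel) (by decide +kernel) (by decide +kernel) hts

theorem aWY (hX : EPC G X) (hY : EPC G Y) (hd0 : Disjoint X Y) {x1 x2 y1 y2 p q p' q' r : V}
    (m0 : x1 ∈ X) (m1 : x2 ∈ X) (m2 : y1 ∈ Y) (m3 : y2 ∈ Y) (k1 : G.Adj x1 y1) (k2 : G.Adj x2 y2) (k3 : ¬ G.Adj x1 y2) (k4 : ¬ G.Adj x2 y1)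
    (ma : p ∈ X) (mc : q ∈ Y) (mb : p' ∉ X ∪ Y) (md : q' ∉ X ∪ Y) (mr : r ∈ Y) (w : W4 G p p' q q' r) : False :=
  aWY_ref (S := rel2 G X Y) (p := pt [x1, x2, y1, y2, p, q, p', q', r] x1) (PHs.app (UHs.phs (tC_h hX hY) _ _) (
  .cons (fun d hd h0 => h0 k1) (
  .cons (fun d hd h0 => h0 k2) (
  .cons (fun d hd h0 => k3 h0) (
  .cons (fun d hd h0 => k4 h0) (
  .cons (fun d hd h0 => h0 ⟨m0, m0⟩) (
  .cons (fun d hd h0 => (Set.disjoint_left.1 hd0 m0 h0.1)) (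
  .cons (fun d hd h0 => h0 ⟨m1, m1⟩) (
  .cons (fun d hd h0 => (Set.disjoint_left.1 hd0 m1 h0.1)) (
  .cons (fun d hd h0 => (Set.disjoint_left.1 hd0 h0.1 m2)) (
  .cons (fun d hd h0 => h0 ⟨m2, m2⟩) (
  .cons (fun d hd h0 => (Set.disjoint_left.1 hd0 h0.1 m3)) (
  .cons (fun d hd h0 => h0 ⟨m3, m3⟩) (
  .cons (fun d hd h0 => w.n1 h0) (
  .cons (fun d hd h0 => w.n2 h0) (
  .cons (fun d hd h0 => h0 w.pq) (
  .cons (fun d hd h0 => h0 w.pq') (
  .cons (fun d hd h0 => h0 w.p'q) (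
  .cons (fun d hd h0 => h0 w.p'q') (
  .cons (fun d hd h0 => h0 w.rp) (
  .cons (fun d hd h0 => h0 w.rp') (
  .cons (fun d hd h0 => h0 w.rq) (
  .cons (fun d hd h0 => h0 w.rq') (
  .cons (fun d hd h0 => h0 ⟨ma, ma⟩) (
  .cons (fun d hd h0 => (Set.disjoint_left.1 hd0 ma h0.1)) (
  .cons (fun d hd h0 => (Set.disjoint_left.1 hd0 h0.1 mc)) (
  .cons (fun d hd h0 => h0 ⟨mc, mc⟩) (
  .cons (fun d hd h0 => mb (Or.inl h0.1)) (
  .cons (fun d hd h0 => mb (Or.inr h0.1)) (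
  .cons (fun d hd h0 => md (Or.inl h0.1)) (
  .cons (fun d hd h0 => md (Or.inr h0.1)) (
  .cons (fun d hd h0 => (Set.disjoint_left.1 hd0 h0.1 mr)) (
  .cons (fun d hd h0 => h0 ⟨mr, mr⟩) (
  .nil))))))))))))))))))))))))))))))))))

/-- templates -/
def aWO_x : List Tm := [
  ⟨0, [], [], [.b true 0 8 10]⟩,
  ⟨0, [], [], [.b true 0 9 11]⟩,
  ⟨0, [], [], [.b false 0 8 11]⟩,
  ⟨0, [], [], [.b false 0 9 10]⟩,
  ⟨0, [], [], [.b true 1 8 8]⟩,
  ⟨0, [], [], [.b false 2 8 8]⟩,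
  ⟨0, [], [], [.b true 1 9 9]⟩,
  ⟨0, [], [], [.b false 2 9 9]⟩,
  ⟨0, [], [], [.b false 1 10 10]⟩,
  ⟨0, [], [], [.b true 2 10 10]⟩,
  ⟨0, [], [], [.b false 1 11 11]⟩,
  ⟨0, [], [], [.b true 2 11 11]⟩,
  ⟨0, [], [], [.b false 0 12 14]⟩,
  ⟨0, [], [], [.b false 0 13 15]⟩,
  ⟨0, [], [], [.b true 0 12 13]⟩,
  ⟨0, [], [], [.b true 0 12 15]⟩,
  ⟨0, [], [], [.b true 0 14 13]⟩,
  ⟨0, [], [], [.b true 0 14 15]⟩,
  ⟨0, [], [], [.b true 0 16 12]⟩,
  ⟨0, [], [], [.b true 0 16 14]⟩,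
  ⟨0, [], [], [.b true 0 16 13]⟩,
  ⟨0, [], [], [.b true 0 16 15]⟩,
  ⟨0, [], [], [.b true 1 12 12]⟩,
  ⟨0, [], [], [.b false 2 12 12]⟩,
  ⟨0, [], [], [.b false 1 13 13]⟩,
  ⟨0, [], [], [.b true 2 13 13]⟩,
  ⟨0, [], [], [.b false 1 14 14]⟩,
  ⟨0, [], [], [.b false 2 14 14]⟩,
  ⟨0, [], [], [.b false 1 15 15]⟩,
  ⟨0, [], [], [.b false 2 15 15]⟩,
  ⟨0, [], [], [.b false 1 16 16]⟩,
  ⟨0, [], [], [.b false 2 16 16]⟩]

def aWO_p0 : List Nat := [
0x10ace80b00000003100000004700000002f00000004300000004100000003300000003700000003500000003900000003f00000003b00000003d00000004b00f1000e01,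
0x2ca41100ac4820b00000004b00000002f00000002700000002300000004300000003300000003700000004d00000001d00000002500000002900000004900ab00b700cc00a800ba000e05,
0x4000c8a411000306a1100106820300100a40d00050080700050020700000003700000002900000004500000004900000002f00000004d00000002d00000001900000002500000003f00000005500000002300000002b00000003b00000004300000005300000001700000002100000001f00000002700000001d0072001c01,
0x30641100000005500000002d00000001d000000025000000029000000019000000006006f000801,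
0x10c4820b000ca28030008ca4110002c641100000003b00000003d00000000800000000600000004300000002300000001d00000002700000002f00000004b00000003300000004700000002900000004900000004500000004d00000001900000002500000002d00cc001701,
0xc0a40d00000004d00000004900000003700000002100000001700000002900000000a0033000801,
0xc8a41100000004d00000002f00000004900000004500000002900000003700000000a00ab000801,
0x10e8a41500000005100000003100000004500000000e00000002900000000600000003300000004900000004100000003500000003f00000003b00000000c00e1000e01,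
0x4e080700000000200000004300000003500000002700000001f00000001700000001000000000e000900]

def aWO_pf : List Nat := aWO_p0

theorem aWO_ref {V : Type} {S : SRel V} {p : Nat → V} (hts : PHs S p 9 (tC ++ (aWO_x))) : False :=
  refuteN (k := 9) (n2 := 3) (n3 := 0) (n4 := 0) (o3 := 135) (o4 := 135) (M := 135) (tC ++ (aWO_x)) aWO_pf (by decide +kernel)
    (by decide +kernel) (by decide +kernel) (by decide +kernel) hts

theorem aWO (hX : EPC G X) (hY : EPC G Y) (hd0 : Disjoint X Y) {x1 x2 y1 y2 p q p' q' r : V}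
    (m0 : x1 ∈ X) (m1 : x2 ∈ X) (m2 : y1 ∈ Y) (m3 : y2 ∈ Y) (k1 : G.Adj x1 y1) (k2 : G.Adj x2 y2) (k3 : ¬ G.Adj x1 y2) (k4 : ¬ G.Adj x2 y1)
    (ma : p ∈ X) (mc : q ∈ Y) (mb : p' ∉ X ∪ Y) (md : q' ∉ X ∪ Y) (mr : r ∉ X ∪ Y) (w : W4 G p p' q q' r) : False :=
  aWO_ref (S := rel2 G X Y) (p := pt [x1, x2, y1, y2, p, q, p', q', r] x1) (PHs.app (UHs.phs (tC_h hX hY) _ _) (
  .cons (fun d hd h0 => h0 k1) (
  .cons (fun d hd h0 => h0 k2) (
  .cons (fun d hd h0 => k3 h0) (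
  .cons (fun d hd h0 => k4 h0) (
  .cons (fun d hd h0 => h0 ⟨m0, m0⟩) (
  .cons (fun d hd h0 => (Set.disjoint_left.1 hd0 m0 h0.1)) (
  .cons (fun d hd h0 => h0 ⟨m1, m1⟩) (
  .cons (fun d hd h0 => (Set.disjoint_left.1 hd0 m1 h0.1)) (
  .cons (fun d hd h0 => (Set.disjoint_left.1 hd0 h0.1 m2)) (
  .cons (fun d hd h0 => h0 ⟨m2, m2⟩) (
  .cons (fun d hd h0 => (Set.disjoint_left.1 hd0 h0.1 m3)) (
  .cons (fun d hd h0 => h0 ⟨m3, m3⟩) (
  .cons (fun d hd h0 => w.n1 h0) (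
  .cons (fun d hd h0 => w.n2 h0) (
  .cons (fun d hd h0 => h0 w.pq) (
  .cons (fun d hd h0 => h0 w.pq') (
  .cons (fun d hd h0 => h0 w.p'q) (
  .cons (fun d hd h0 => h0 w.p'q') (
  .cons (fun d hd h0 => h0 w.rp) (
  .cons (fun d hd h0 => h0 w.rp') (
  .cons (fun d hd h0 => h0 w.rq) (
  .cons (fun d hd h0 => h0 w.rq') (
  .cons (fun d hd h0 => h0 ⟨ma, ma⟩) (
  .cons (fun d hd h0 => (Set.disjoint_left.1 hd0 ma h0.1)) (
  .cons (fun d hd h0 => (Set.disjoint_left.1 hd0 h0.1 mc)) (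
  .cons (fun d hd h0 => h0 ⟨mc, mc⟩) (
  .cons (fun d hd h0 => mb (Or.inl h0.1)) (
  .cons (fun d hd h0 => mb (Or.inr h0.1)) (
  .cons (fun d hd h0 => md (Or.inl h0.1)) (
  .cons (fun d hd h0 => md (Or.inr h0.1)) (
  .cons (fun d hd h0 => mr (Or.inl h0.1)) (
  .cons (fun d hd h0 => mr (Or.inr h0.1)) (
  .nil))))))))))))))))))))))))))))))))))

/-- templates -/
def bR_x : List Tm := [
  ⟨0, [], [], [.b true 0 8 10]⟩,
  ⟨0, [], [], [.b true 0 8 11]⟩,
  ⟨0, [], [], [.b true 0 9 11]⟩,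
  ⟨0, [], [], [.b false 0 9 10]⟩,
  ⟨0, [], [], [.b true 1 8 8]⟩,
  ⟨0, [], [], [.b false 2 8 8]⟩,
  ⟨0, [], [], [.b true 1 9 9]⟩,
  ⟨0, [], [], [.b false 2 9 9]⟩,
  ⟨0, [], [], [.b false 1 10 10]⟩,
  ⟨0, [], [], [.b true 2 10 10]⟩,
  ⟨0, [], [], [.b false 1 11 11]⟩,
  ⟨0, [], [], [.b true 2 11 11]⟩,
  ⟨0, [], [], [.b true 0 12 14]⟩,
  ⟨0, [], [], [.b true 0 13 15]⟩,
  ⟨0, [], [], [.b false 0 12 13, .b false 0 14 15]⟩,
  ⟨0, [], [], [.b false 0 12 15, .b false 0 13 14]⟩,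
  ⟨0, [], [], [.b true 1 12 12]⟩,
  ⟨0, [], [], [.b false 2 12 12]⟩,
  ⟨0, [], [], [.b false 1 13 13]⟩,
  ⟨0, [], [], [.b true 2 13 13]⟩,
  ⟨0, [], [], [.b false 1 14 14]⟩,
  ⟨0, [], [], [.b false 2 14 14]⟩,
  ⟨0, [], [], [.b false 1 15 15]⟩,
  ⟨0, [], [], [.b false 2 15 15]⟩]

def bR_p0 : List Nat := [
0x46020700000002b00000002700000002300000002100000001f00000001b00000002f0018000801,
0x46020300000002b00000002700000002100000002300000001f00000001b00000002f0003000801,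
0xe6204a190040ea6150004e02070002e6a110000e4a110000e6a0d0000e4a0d000ac2807000ac080700000004300000003f00000003b00000003300000002900000002b00000002500000004900000004700000002100000002300000000400000002700000001b00000002d00000001d00000001f0000000020000000310000000410000000350039004e001e02,
0xc04628170064c200b0002c64110006c28030006c08070004c08030004c08070008e6a110008e4a1100000004900000004100000003d00000003500000002f00000002900000002b00000004500000004300000002100000002300000000400000002700000001b00000002d00000001d00000001f00000000200000003100000003b00000003300390060001e02,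
0x80000000390000000060039000301,
0x3700000000a00d2000201,
0x2e6411000e0a411000ec2807000ec080700000001f00000002d00000002900000002100000003100000004900000001b00000002500000003500000004100000003300000002700000003b00000004300000000c0000000470000000230060001501,
0x3900000000e00ba000201,
0xce4a1100000004900000000c00000004500000004100000002d00000003500000001000b1000801,
0xce6a1100000004900000000c00000004500000004100000003100000003500000001000b4000801,
0x4c020700000004300000002b00000002700000002100000002300000001b00000001200ae000801,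
0xc6820700000004300000003b00000003300000002f00000002700000001f000000014000000016000900]

def bR_pf : List Nat := bR_p0

theorem bR_ref {V : Type} {S : SRel V} {p : Nat → V} (hts : PHs S p 8 (tC ++ (tK ++ bR_x))) : False :=
  refuteN (k := 8) (n2 := 3) (n3 := 0) (n4 := 0) (o3 := 108) (o4 := 108) (M := 108) (tC ++ (tK ++ bR_x)) bR_pf (by decide +kernel)
    (by decide +kernel) (by decide +kernel) (by decide +kernel) hts

theorem bR (hX : EPC G X) (hY : EPC G Y) (hd0 : Disjoint X Y) (hk : NoK6P4 G) {x1 x2 y1 y2 a e b f : V}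
    (m0 : x1 ∈ X) (m1 : x2 ∈ X) (m2 : y1 ∈ Y) (m3 : y2 ∈ Y) (k1 : G.Adj x1 y1) (k2 : G.Adj x1 y2) (k3 : G.Adj x2 y2) (k4 : ¬ G.Adj x2 y1)
    (ma : a ∈ X) (mc : e ∈ Y) (mb : b ∉ X ∪ Y) (md : f ∉ X ∪ Y) (e1 : G.Adj a b) (e2 : G.Adj e f) (e3 : ¬ (G.Adj a e ∧ G.Adj b f))
    (e4 : ¬ (G.Adj a f ∧ G.Adj e b)) : False :=
  bR_ref (S := rel2 G X Y) (p := pt [x1, x2, y1, y2, a, e, b, f] x1) (PHs.app (UHs.phs (tC_h hX hY) _ _) (PHs.app (UHs.phs (tK_h hk) _ _) (
  .cons (fun d hd h0 => h0 k1) (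
  .cons (fun d hd h0 => h0 k2) (
  .cons (fun d hd h0 => h0 k3) (
  .cons (fun d hd h0 => k4 h0) (
  .cons (fun d hd h0 => h0 ⟨m0, m0⟩) (
  .cons (fun d hd h0 => (Set.disjoint_left.1 hd0 m0 h0.1)) (
  .cons (fun d hd h0 => h0 ⟨m1, m1⟩) (
  .cons (fun d hd h0 => (Set.disjoint_left.1 hd0 m1 h0.1)) (
  .cons (fun d hd h0 => (Set.disjoint_left.1 hd0 h0.1 m2)) (
  .cons (fun d hd h0 => h0 ⟨m2, m2⟩) (
  .cons (fun d hd h0 => (Set.disjoint_left.1 hd0 h0.1 m3)) (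
  .cons (fun d hd h0 => h0 ⟨m3, m3⟩) (
  .cons (fun d hd h0 => h0 e1) (
  .cons (fun d hd h0 => h0 e2) (
  .cons (fun d hd h0 h1 => e3 ⟨h0, h1⟩) (
  .cons (fun d hd h0 h1 => e4 ⟨h0, h1⟩) (
  .cons (fun d hd h0 => h0 ⟨ma, ma⟩) (
  .cons (fun d hd h0 => (Set.disjoint_left.1 hd0 ma h0.1)) (
  .cons (fun d hd h0 => (Set.disjoint_left.1 hd0 h0.1 mc)) (
  .cons (fun d hd h0 => h0 ⟨mc, mc⟩) (
  .cons (fun d hd h0 => mb (Or.inl h0.1)) (
  .cons (fun d hd h0 => mb (Or.inr h0.1)) (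
  .cons (fun d hd h0 => md (Or.inl h0.1)) (
  .cons (fun d hd h0 => md (Or.inr h0.1)) (
  .nil)))))))))))))))))))))))))))

/-- templates -/
def bWX_x : List Tm := [
  ⟨0, [], [], [.b true 0 8 10]⟩,
  ⟨0, [], [], [.b true 0 8 11]⟩,
  ⟨0, [], [], [.b true 0 9 11]⟩,
  ⟨0, [], [], [.b false 0 9 10]⟩,
  ⟨0, [], [], [.b true 1 8 8]⟩,
  ⟨0, [], [], [.b false 2 8 8]⟩,
  ⟨0, [], [], [.b true 1 9 9]⟩,
  ⟨0, [], [], [.b false 2 9 9]⟩,
  ⟨0, [], [], [.b false 1 10 10]⟩,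
  ⟨0, [], [], [.b true 2 10 10]⟩,
  ⟨0, [], [], [.b false 1 11 11]⟩,
  ⟨0, [], [], [.b true 2 11 11]⟩,
  ⟨0, [], [], [.b false 0 12 14]⟩,
  ⟨0, [], [], [.b false 0 13 15]⟩,
  ⟨0, [], [], [.b true 0 12 13]⟩,
  ⟨0, [], [], [.b true 0 12 15]⟩,
  ⟨0, [], [], [.b true 0 14 13]⟩,
  ⟨0, [], [], [.b true 0 14 15]⟩,
  ⟨0, [], [], [.b true 0 16 12]⟩,
  ⟨0, [], [], [.b true 0 16 14]⟩,
  ⟨0, [], [], [.b true 0 16 13]⟩,
  ⟨0, [], [], [.b true 0 16 15]⟩,
  ⟨0, [], [], [.b true 1 12 12]⟩,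
  ⟨0, [], [], [.b false 2 12 12]⟩,
  ⟨0, [], [], [.b false 1 13 13]⟩,
  ⟨0, [], [], [.b true 2 13 13]⟩,
  ⟨0, [], [], [.b false 1 14 14]⟩,
  ⟨0, [], [], [.b false 2 14 14]⟩,
  ⟨0, [], [], [.b false 1 15 15]⟩,
  ⟨0, [], [], [.b false 2 15 15]⟩,
  ⟨0, [], [], [.b true 1 16 16]⟩,
  ⟨0, [], [], [.b false 2 16 16]⟩]

def bWX_p0 : List Nat := [
0x10ace80b00000003500000004b00000003300000004700000004500000003700000003b00000003900000003d00000004300000003f00000004100000004f00f1000e01,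
0x10e2a415000ae82070002e6411000e84a0d00047020300000004300000004500000004d00000002d00000002900000002100000003500000005500000003700000002700000004700000004b00000000200000001f00000003100000004900000005700000002f00000002b00f900e1001802,
0x2c6a11010ce820b000ea8207000e682030004e020700000000400047020300000003100000001f00000002900000003b00000004d00000005100000003f00000004100000003d00000003900000004500000004700000002700000003300000004f00000000200000004b00000003500000002f00000001b00000002300000002100000002b00000005700f9001f01,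
0x100a40d00000005900000004d00000004300000002500000001b00000002d0000000060033000801,
0x4c100700000005700000004f00000004100000002b00000002300000001b0000000060045000801,
0x4e100700000005700000000200000004500000002b00000002300000001b000000006005a000801,
0xcf0a41500000005900000000800000005500000003500000002d00000000c00000004d00000004500000003b00000004300000003d00000004100000000600000000a000f00]

def bWX_pf : List Nat := bWX_p0

theorem bWX_ref {V : Type} {S : SRel V} {p : Nat → V} (hts : PHs S p 9 (tC ++ (tK ++ bWX_x))) : False :=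
  refuteN (k := 9) (n2 := 3) (n3 := 0) (n4 := 0) (o3 := 135) (o4 := 135) (M := 135) (tC ++ (tK ++ bWX_x)) bWX_pf (by decide +kernel)
    (by decide +kernel) (by decide +kernel) (by decide +kernel) hts

theorem bWX (hX : EPC G X) (hY : EPC G Y) (hd0 : Disjoint X Y) (hk : NoK6P4 G) {x1 x2 y1 y2 p q p' q' r : V}
    (m0 : x1 ∈ X) (m1 : x2 ∈ X) (m2 : y1 ∈ Y) (m3 : y2 ∈ Y) (k1 : G.Adj x1 y1) (k2 : G.Adj x1 y2) (k3 : G.Adj x2 y2) (k4 : ¬ G.Adj x2 y1)
    (ma : p ∈ X) (mc : q ∈ Y) (mb : p' ∉ X ∪ Y) (md : q' ∉ X ∪ Y) (mr : r ∈ X) (w : W4 G p p' q q' r) : False :=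
  bWX_ref (S := rel2 G X Y) (p := pt [x1, x2, y1, y2, p, q, p', q', r] x1) (PHs.app (UHs.phs (tC_h hX hY) _ _) (PHs.app (UHs.phs (tK_h hk) _ _) (
  .cons (fun d hd h0 => h0 k1) (
  .cons (fun d hd h0 => h0 k2) (
  .cons (fun d hd h0 => h0 k3) (
  .cons (fun d hd h0 => k4 h0) (
  .cons (fun d hd h0 => h0 ⟨m0, m0⟩) (
  .cons (fun d hd h0 => (Set.disjoint_left.1 hd0 m0 h0.1)) (
  .cons (fun d hd h0 => h0 ⟨m1, m1⟩) (
  .cons (fun d hd h0 => (Set.disjoint_left.1 hd0 m1 h0.1)) (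
  .cons (fun d hd h0 => (Set.disjoint_left.1 hd0 h0.1 m2)) (
  .cons (fun d hd h0 => h0 ⟨m2, m2⟩) (
  .cons (fun d hd h0 => (Set.disjoint_left.1 hd0 h0.1 m3)) (
  .cons (fun d hd h0 => h0 ⟨m3, m3⟩) (
  .cons (fun d hd h0 => w.n1 h0) (
  .cons (fun d hd h0 => w.n2 h0) (
  .cons (fun d hd h0 => h0 w.pq) (
  .cons (fun d hd h0 => h0 w.pq') (
  .cons (fun d hd h0 => h0 w.p'q) (
  .cons (fun d hd h0 => h0 w.p'q') (
  .cons (fun d hd h0 => h0 w.rp) (
  .cons (fun d hd h0 => h0 w.rp') (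
  .cons (fun d hd h0 => h0 w.rq) (
  .cons (fun d hd h0 => h0 w.rq') (
  .cons (fun d hd h0 => h0 ⟨ma, ma⟩) (
  .cons (fun d hd h0 => (Set.disjoint_left.1 hd0 ma h0.1)) (
  .cons (fun d hd h0 => (Set.disjoint_left.1 hd0 h0.1 mc)) (
  .cons (fun d hd h0 => h0 ⟨mc, mc⟩) (
  .cons (fun d hd h0 => mb (Or.inl h0.1)) (
  .cons (fun d hd h0 => mb (Or.inr h0.1)) (
  .cons (fun d hd h0 => md (Or.inl h0.1)) (
  .cons (fun d hd h0 => md (Or.inr h0.1)) (
  .cons (fun d hd h0 => h0 ⟨mr, mr⟩) (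
  .cons (fun d hd h0 => (Set.disjoint_left.1 hd0 mr h0.1)) (
  .nil)))))))))))))))))))))))))))))))))))

/-- templates -/
def bWY_x : List Tm := [
  ⟨0, [], [], [.b true 0 8 10]⟩,
  ⟨0, [], [], [.b true 0 8 11]⟩,
  ⟨0, [], [], [.b true 0 9 11]⟩,
  ⟨0, [], [], [.b false 0 9 10]⟩,
  ⟨0, [], [], [.b true 1 8 8]⟩,
  ⟨0, [], [], [.b false 2 8 8]⟩,
  ⟨0, [], [], [.b true 1 9 9]⟩,
  ⟨0, [], [], [.b false 2 9 9]⟩,
  ⟨0, [], [], [.b false 1 10 10]⟩,
  ⟨0, [], [], [.b true 2 10 10]⟩,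
  ⟨0, [], [], [.b false 1 11 11]⟩,
  ⟨0, [], [], [.b true 2 11 11]⟩,
  ⟨0, [], [], [.b false 0 12 14]⟩,
  ⟨0, [], [], [.b false 0 13 15]⟩,
  ⟨0, [], [], [.b true 0 12 13]⟩,
  ⟨0, [], [], [.b true 0 12 15]⟩,
  ⟨0, [], [], [.b true 0 14 13]⟩,
  ⟨0, [], [], [.b true 0 14 15]⟩,
  ⟨0, [], [], [.b true 0 16 12]⟩,
  ⟨0, [], [], [.b true 0 16 14]⟩,
  ⟨0, [], [], [.b true 0 16 13]⟩,
  ⟨0, [], [], [.b true 0 16 15]⟩,
  ⟨0, [], [], [.b true 1 12 12]⟩,
  ⟨0, [], [], [.b false 2 12 12]⟩,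
  ⟨0, [], [], [.b false 1 13 13]⟩,
  ⟨0, [], [], [.b true 2 13 13]⟩,
  ⟨0, [], [], [.b false 1 14 14]⟩,
  ⟨0, [], [], [.b false 2 14 14]⟩,
  ⟨0, [], [], [.b false 1 15 15]⟩,
  ⟨0, [], [], [.b false 2 15 15]⟩,
  ⟨0, [], [], [.b false 1 16 16]⟩,
  ⟨0, [], [], [.b true 2 16 16]⟩]

def bWY_p0 : List Nat := [
0x46020700000002b00000002700000002300000002100000001f00000001b00000002f0018000801,
0x10ace80b00000003500000004b00000003300000004700000004500000003700000003b00000003900000003d00000004300000003f00000004100000004f00f1000e01,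
0x6e2a415000ae82070002e6411000e84a0d000e86a0d00000004d00000000200000001f00000002d00000002900000002100000003500000005500000003700000002700000004700000004b00000000400000003100000004900e400e1001402,
0x2c6a11010ca820b00000004f00000003300000004b00000002700000004700000003700000004300000004100000003f00000005100000004d00000003b00000002900000001f00000003100f6003000a8001103,
0x8000ea8207000e6820300000003900000002700000004700000004b00000003500000000400000001f00000002f00f60057000b02,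
0x6010e2641500000005500000002100000002900000002d00000001f00000000200000003100000004500f600f900fc00de00e1000a05,
0xc0004e020700000000a00000001b00000002300000002100000002700000002b00000000400fc00f900f6000903,
0xed0820b0002e70110002c701100106820300000003f00000003d00000003900000004100000004500000004700000002700000003300000004f00000005700000003100000001f00000002900000005500000005900000005100000002f006f001501,
0x50020700000005700000002b00000002700000002100000002300000001b0000000100072000801,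
0xa0000000100057000201,
0xe00000001000000001200fc000301,
0x4e020700000000400000002b00000002700000002100000002300000001b000000014005a000801,
0xe1060d00000005900000005500000004500000002500000001d000000031000000016005d000801,
0x600000001a000000018000300]

def bWY_pf : List Nat := bWY_p0

theorem bWY_ref {V : Type} {S : SRel V} {p : Nat → V} (hts : PHs S p 9 (tC ++ (tK ++ bWY_x))) : False :=
  refuteN (k := 9) (n2 := 3) (n3 := 0) (n4 := 0) (o3 := 135) (o4 := 135) (M := 135) (tC ++ (tK ++ bWY_x)) bWY_pf (by decide +kernel)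
    (by decide +kernel) (by decide +kernel) (by decide +kernel) hts

theorem bWY (hX : EPC G X) (hY : EPC G Y) (hd0 : Disjoint X Y) (hk : NoK6P4 G) {x1 x2 y1 y2 p q p' q' r : V}
    (m0 : x1 ∈ X) (m1 : x2 ∈ X) (m2 : y1 ∈ Y) (m3 : y2 ∈ Y) (k1 : G.Adj x1 y1) (k2 : G.Adj x1 y2) (k3 : G.Adj x2 y2) (k4 : ¬ G.Adj x2 y1)
    (ma : p ∈ X) (mc : q ∈ Y) (mb : p' ∉ X ∪ Y) (md : q' ∉ X ∪ Y) (mr : r ∈ Y) (w : W4 G p p' q q' r) : False :=
  bWY_ref (S := rel2 G X Y) (p := pt [x1, x2, y1, y2, p, q, p', q', r] x1) (PHs.app (UHs.phs (tC_h hX hY) _ _) (PHs.app (UHs.phs (tK_h hk) _ _) (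
  .cons (fun d hd h0 => h0 k1) (
  .cons (fun d hd h0 => h0 k2) (
  .cons (fun d hd h0 => h0 k3) (
  .cons (fun d hd h0 => k4 h0) (
  .cons (fun d hd h0 => h0 ⟨m0, m0⟩) (
  .cons (fun d hd h0 => (Set.disjoint_left.1 hd0 m0 h0.1)) (
  .cons (fun d hd h0 => h0 ⟨m1, m1⟩) (
  .cons (fun d hd h0 => (Set.disjoint_left.1 hd0 m1 h0.1)) (
  .cons (fun d hd h0 => (Set.disjoint_left.1 hd0 h0.1 m2)) (
  .cons (fun d hd h0 => h0 ⟨m2, m2⟩) (
  .cons (fun d hd h0 => (Set.disjoint_left.1 hd0 h0.1 m3)) (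
  .cons (fun d hd h0 => h0 ⟨m3, m3⟩) (
  .cons (fun d hd h0 => w.n1 h0) (
  .cons (fun d hd h0 => w.n2 h0) (
  .cons (fun d hd h0 => h0 w.pq) (
  .cons (fun d hd h0 => h0 w.pq') (
  .cons (fun d hd h0 => h0 w.p'q) (
  .cons (fun d hd h0 => h0 w.p'q') (
  .cons (fun d hd h0 => h0 w.rp) (
  .cons (fun d hd h0 => h0 w.rp') (
  .cons (fun d hd h0 => h0 w.rq) (
  .cons (fun d hd h0 => h0 w.rq') (
  .cons (fun d hd h0 => h0 ⟨ma, ma⟩) (
  .cons (fun d hd h0 => (Set.disjoint_left.1 hd0 ma h0.1)) (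
  .cons (fun d hd h0 => (Set.disjoint_left.1 hd0 h0.1 mc)) (
  .cons (fun d hd h0 => h0 ⟨mc, mc⟩) (
  .cons (fun d hd h0 => mb (Or.inl h0.1)) (
  .cons (fun d hd h0 => mb (Or.inr h0.1)) (
  .cons (fun d hd h0 => md (Or.inl h0.1)) (
  .cons (fun d hd h0 => md (Or.inr h0.1)) (
  .cons (fun d hd h0 => (Set.disjoint_left.1 hd0 h0.1 mr)) (
  .cons (fun d hd h0 => h0 ⟨mr, mr⟩) (
  .nil)))))))))))))))))))))))))))))))))))

/-- templates -/
def bWO_x : List Tm := [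
  ⟨0, [], [], [.b true 0 8 10]⟩,
  ⟨0, [], [], [.b true 0 8 11]⟩,
  ⟨0, [], [], [.b true 0 9 11]⟩,
  ⟨0, [], [], [.b false 0 9 10]⟩,
  ⟨0, [], [], [.b true 1 8 8]⟩,
  ⟨0, [], [], [.b false 2 8 8]⟩,
  ⟨0, [], [], [.b true 1 9 9]⟩,
  ⟨0, [], [], [.b false 2 9 9]⟩,
  ⟨0, [], [], [.b false 1 10 10]⟩,
  ⟨0, [], [], [.b true 2 10 10]⟩,
  ⟨0, [], [], [.b false 1 11 11]⟩,
  ⟨0, [], [], [.b true 2 11 11]⟩,
  ⟨0, [], [], [.b false 0 12 14]⟩,
  ⟨0, [], [], [.b false 0 13 15]⟩,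
  ⟨0, [], [], [.b true 0 12 13]⟩,
  ⟨0, [], [], [.b true 0 12 15]⟩,
  ⟨0, [], [], [.b true 0 14 13]⟩,
  ⟨0, [], [], [.b true 0 14 15]⟩,
  ⟨0, [], [], [.b true 0 16 12]⟩,
  ⟨0, [], [], [.b true 0 16 14]⟩,
  ⟨0, [], [], [.b true 0 16 13]⟩,
  ⟨0, [], [], [.b true 0 16 15]⟩,
  ⟨0, [], [], [.b true 1 12 12]⟩,
  ⟨0, [], [], [.b false 2 12 12]⟩,
  ⟨0, [], [], [.b false 1 13 13]⟩,
  ⟨0, [], [], [.b true 2 13 13]⟩,
  ⟨0, [], [], [.b false 1 14 14]⟩,
  ⟨0, [], [], [.b false 2 14 14]⟩,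
  ⟨0, [], [], [.b false 1 15 15]⟩,
  ⟨0, [], [], [.b false 2 15 15]⟩,
  ⟨0, [], [], [.b false 1 16 16]⟩,
  ⟨0, [], [], [.b false 2 16 16]⟩]

def bWO_p0 : List Nat := [
0x10ace80b00000003500000004b00000003300000004700000004500000003700000003b00000003900000003d00000004300000003f00000004100000004f00f1000e01,
0x10e2a415000ae82070002e6411000e84a0d00030641100000004300000004500000004d00000002d00000002900000002100000003500000005500000003700000002700000004700000004b00000000200000001f00000003100000004900000005900f900e1001602,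
0x2c6a11010ca820b00000004f00000003300000004b00000002700000004700000003700000004300000004100000003f00000005100000004d00000003b00000002900000001f00000003100f6003000a8001103,
0x6000ea8207000e682030004e020700000000400030641100000003900000002700000004700000004b00000003500000000200000001f00000002f00000001b00000002300000002100000002b00000002d00000002900000003100000005900f9001601,
0x50020700000005700000002b00000002700000002100000002300000001b00000000800f6000801,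
0x50080700000005700000004700000003f00000002b00000002300000001b0000000080024000801,
0x106820300000005700000004700000003f00000002f00000002700000001f00000000a0021000801,
0x306a1100000005900000004d00000004300000002900000001f00000003100000000a0030000801,
0xc8a41100000005100000003300000004d00000004900000002d00000003b00000000c0045000801,
0xad0820b00000005700000000a00000004f00000003300000002700000000e00000004700000004300000003700000004100000003b00000003f00000001000c9000e01,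
0x2ca41100000005100000001400000002100000002900000002d00000004d000000010000000012000900]

def bWO_pf : List Nat := bWO_p0

theorem bWO_ref {V : Type} {S : SRel V} {p : Nat → V} (hts : PHs S p 9 (tC ++ (tK ++ bWO_x))) : False :=
  refuteN (k := 9) (n2 := 3) (n3 := 0) (n4 := 0) (o3 := 135) (o4 := 135) (M := 135) (tC ++ (tK ++ bWO_x)) bWO_pf (by decide +kernel)
    (by decide +kernel) (by decide +kernel) (by decide +kernel) hts

theorem bWO (hX : EPC G X) (hY : EPC G Y) (hd0 : Disjoint X Y) (hk : NoK6P4 G) {x1 x2 y1 y2 p q p' q' r : V}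
    (m0 : x1 ∈ X) (m1 : x2 ∈ X) (m2 : y1 ∈ Y) (m3 : y2 ∈ Y) (k1 : G.Adj x1 y1) (k2 : G.Adj x1 y2) (k3 : G.Adj x2 y2) (k4 : ¬ G.Adj x2 y1)
    (ma : p ∈ X) (mc : q ∈ Y) (mb : p' ∉ X ∪ Y) (md : q' ∉ X ∪ Y) (mr : r ∉ X ∪ Y) (w : W4 G p p' q q' r) : False :=
  bWO_ref (S := rel2 G X Y) (p := pt [x1, x2, y1, y2, p, q, p', q', r] x1) (PHs.app (UHs.phs (tC_h hX hY) _ _) (PHs.app (UHs.phs (tK_h hk) _ _) (
  .cons (fun d hd h0 => h0 k1) (
  .cons (fun d hd h0 => h0 k2) (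
  .cons (fun d hd h0 => h0 k3) (
  .cons (fun d hd h0 => k4 h0) (
  .cons (fun d hd h0 => h0 ⟨m0, m0⟩) (
  .cons (fun d hd h0 => (Set.disjoint_left.1 hd0 m0 h0.1)) (
  .cons (fun d hd h0 => h0 ⟨m1, m1⟩) (
  .cons (fun d hd h0 => (Set.disjoint_left.1 hd0 m1 h0.1)) (
  .cons (fun d hd h0 => (Set.disjoint_left.1 hd0 h0.1 m2)) (
  .cons (fun d hd h0 => h0 ⟨m2, m2⟩) (
  .cons (fun d hd h0 => (Set.disjoint_left.1 hd0 h0.1 m3)) (
  .cons (fun d hd h0 => h0 ⟨m3, m3⟩) (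
  .cons (fun d hd h0 => w.n1 h0) (
  .cons (fun d hd h0 => w.n2 h0) (
  .cons (fun d hd h0 => h0 w.pq) (
  .cons (fun d hd h0 => h0 w.pq') (
  .cons (fun d hd h0 => h0 w.p'q) (
  .cons (fun d hd h0 => h0 w.p'q') (
  .cons (fun d hd h0 => h0 w.rp) (
  .cons (fun d hd h0 => h0 w.rp') (
  .cons (fun d hd h0 => h0 w.rq) (
  .cons (fun d hd h0 => h0 w.rq') (
  .cons (fun d hd h0 => h0 ⟨ma, ma⟩) (
  .cons (fun d hd h0 => (Set.disjoint_left.1 hd0 ma h0.1)) (
  .cons (fun d hd h0 => (Set.disjoint_left.1 hd0 h0.1 mc)) (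
  .cons (fun d hd h0 => h0 ⟨mc, mc⟩) (
  .cons (fun d hd h0 => mb (Or.inl h0.1)) (
  .cons (fun d hd h0 => mb (Or.inr h0.1)) (
  .cons (fun d hd h0 => md (Or.inl h0.1)) (
  .cons (fun d hd h0 => md (Or.inr h0.1)) (
  .cons (fun d hd h0 => mr (Or.inl h0.1)) (
  .cons (fun d hd h0 => mr (Or.inr h0.1)) (
  .nil)))))))))))))))))))))))))))))))))))

end Pool.Agent.SOZ
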